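import Mathlib
import Pool.Agent.H55.Nd2

/-! Under diamond: a regular hereditarily Lindelöf non-D space with countable countable closures. -/

namespace Pool.Agent.Results.MP_f00d09_gt.DiamondCex

open Set Filter Topology Pool.Agent.H33.DiaDefs

/-- D-space -/
def IsDSpace (X : Type) [TopologicalSpace X] : Prop :=
  ∀ N : X → Set X, (∀ x, IsOpen (N x) ∧ x ∈ N x) →
    ∃ D : Set X, IsClosed D ∧ DiscreteTopology D ∧ (⋃ d ∈ D, N d) = univ

/-- the Menger property -/
def Menger (X : Type) [TopologicalSpace X] : Prop :=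
  ∀ U : ℕ → Set (Set X), (∀ n, (∀ O ∈ U n, IsOpen O) ∧ ⋃₀ U n = univ) →
    ∃ V : ℕ → Set (Set X), (∀ n, V n ⊆ U n ∧ (V n).Finite) ∧ ⋃ n, ⋃₀ V n = univ

open Pool.Agent.H55.Nd

theorem menger (Z : Type) [TopologicalSpace Z] [Countable Z] : Menger Z := fun U hU => by
  rcases isEmpty_or_nonempty Z with h | h
  · exact ⟨fun _ => ∅, fun _ => ⟨empty_subset _, finite_empty⟩, Subsingleton.elim _ _⟩
  obtain ⟨e, he⟩ := exists_surjective_nat Z
  choose O h1 h2 using fun n => (hU n).2.ge (mem_univ (e n))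
  refine ⟨fun n => {O n}, fun n => ⟨singleton_subset_iff.2 (h1 n), finite_singleton _⟩,
    eq_univ_of_forall fun z => ?_⟩
  obtain ⟨n, rfl⟩ := he z
  exact mem_iUnion.2 ⟨n, O n, rfl, h2 n⟩

theorem result (hD : Diamond) : ∃ (X : Type) (_ : TopologicalSpace X),
    T3Space X ∧ HereditarilyLindelofSpace X ∧
    (∀ A : Set X, A.Countable → (closure A).Countable ∧ Menger (closure A)) ∧ ¬ IsDSpace X := by
  classical
  have := unc
  obtain ⟨A, ι, hA⟩ := guess hD
  obtain ⟨d, hd⟩ := build A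
  have x3 := hfc hA hd
  obtain ⟨φ, hφ⟩ : ∃ φ : P → P → Bool, ∀ a b, φ a b = decide (b ∈ X d a) := ⟨_, fun _ _ => rfl⟩
  choose π hπ using fun p : range φ => p.2
  obtain ⟨e, e0⟩ : ∃ e : P → range φ, ∀ a, (e a).1 = φ a := ⟨fun a => ⟨φ a, a, rfl⟩, fun _ => rfl⟩
  have he : ∀ p, e (π p) = p := fun p => Subtype.ext ((e0 _).trans (hπ p))
  have nb : ∀ V : Set (range φ), IsOpen V → ∀ a, e a ∈ V → ∃ E : Finset P,
      ∀ y, (∀ b ∈ E, b ∈ X d y ↔ b ∈ X d a) → e y ∈ V := fun V hV a ha => by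
    obtain ⟨V, h, rfl⟩ := isOpen_induced_iff.1 hV
    obtain ⟨E, u, a1, a2⟩ := isOpen_pi_iff.1 h _ ha
    exact ⟨E, fun y hy => a2 fun b hb => by
      simpa only [e0, hφ, hy b hb] using (a1 b hb).2⟩
  have hl : ∀ S : Set (range φ), IsLindelof S := fun S => isLindelof_of_countable_subcover
    fun {ι} U hU hS => by
    rcases S.eq_empty_or_nonempty with rfl | ⟨x₀, h₀⟩
    · exact ⟨∅, countable_empty, empty_subset _⟩
    have : ∀ a, ∃ (i : ι) (E : Finset P), e a ∈ S →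
        ∀ y, (∀ b ∈ E, b ∈ X d y ↔ b ∈ X d a) → e y ∈ U i := fun a => by
      by_cases h : e a ∈ S
      · obtain ⟨i, hi⟩ := mem_iUnion.1 (hS h)
        obtain ⟨E, a⟩ := nb _ (hU i) a hi
        exact ⟨i, E, fun _ => a⟩
      · exact ⟨(mem_iUnion.1 (hS h₀)).choose, ∅, fun e => absurd e h⟩
    choose i E h using this
    choose T t1 t2 t3 using fun N => cov (X d) x3 N {a | e a ∈ S ∧ (E a).card ≤ N} E fun _ h => h.2
    refine ⟨i '' ⋃ N, T N, (countable_iUnion t2).image _, fun p hp => ?_⟩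
    obtain ⟨y, u, v⟩ := t3 _ (π p) ⟨(he p).symm ▸ hp, le_rfl⟩
    exact mem_biUnion (mem_image_of_mem i (mem_iUnion.2 ⟨_, u⟩)) (he p ▸ h y (t1 _ u).1 _ v)
  have op : ∀ b, IsOpen {q : range φ | q.1 b = true} := fun b =>
    (isOpen_discrete ({true} : Set Bool)).preimage (f := fun q : range φ => q.1 b)
      ((continuous_apply b).comp continuous_subtype_val)
  have me : ∀ a b, (e a).1 b = true ↔ b ∈ X d a := fun a b => by rw [e0, hφ, decide_eq_true_iff]
  have cl : ∀ B : Set (range φ), B.Countable → (closure B).Countable := fun B hB => by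
    obtain ⟨β, hβ⟩ := bd cnt _ (hB.image fun p => (π p).1)
    have : Uncountable (Ioi β) := not_countable_iff.1 fun h => not_countable_univ
      ((((cnt β).insert β).union (countable_coe_iff.1 h)).mono fun a _ =>
        (le_or_gt a β).imp (fun h => h.eq_or_lt) id)
    obtain ⟨C, -, c2⟩ := x3 (Ioi β) (fun i => {(i.1, 0)}) (fun i => {(i.1, 0)}) fun i k h =>
      Finset.disjoint_singleton.2 fun u => h (Subtype.ext (congrArg Prod.fst u))
    refine (c2.image e).mono fun p hp => (mem_image _ _ _).2 ⟨π p, ?_, he p⟩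
    rintro ⟨i, -, hi⟩
    obtain ⟨q, q1, q2⟩ := mem_closure_iff.1 hp _ (op (i.1, 0)) (by
      rw [mem_ofPred_eq, ← he p, me]
      exact (hi _ (Finset.mem_singleton_self _)).2 (Finset.mem_singleton_self _))
    rw [mem_ofPred_eq, ← he q, me] at q1
    have h := (hβ _ ⟨q, q2, rfl⟩).trans i.2
    rcases (x_ge h.le).1 q1 with k | k
    · exact k rfl
    · exact h.ne' (congrArg Prod.fst k)
  refine ⟨range φ, inferInstance, inferInstance, ⟨fun S _ => hl S⟩, fun B hB => ⟨cl B hB,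
    @menger _ _ (cl B hB).to_subtype⟩, fun h => ?_⟩
  obtain ⟨D, d1, d2, d3⟩ := h (fun p => {q | q.1 (π p) = true}) fun p => ⟨op _, by
    rw [mem_ofPred_eq, ← hπ p, hφ, decide_eq_true_iff]
    exact (x_ge le_rfl).2 (Or.inr rfl)⟩
  have c1 := ((hl D).countable d2).image π
  obtain ⟨β, hβ⟩ := bd cnt _ ((c1.image Prod.fst).union (c1.image fun b => ι ({b}, {b})))
  obtain ⟨δ, k1, -, k2⟩ := hA ((fun b => ({b}, {b})) '' (π '' D)) id β
  have k3 : {b | ({b}, {b}) ∈ A δ} = π '' D := by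
    ext b
    refine (k2 _).trans ⟨?_, fun hb => ⟨⟨b, hb, rfl⟩, (hβ _ (Or.inr ⟨b, hb, rfl⟩)).trans k1⟩⟩
    rintro ⟨⟨c, hc, u⟩, -⟩
    rwa [← Finset.singleton_injective (congrArg Prod.fst u)]
  have k4 := (hd δ).2.2.2 fun γ _ => by
    rw [k3]
    obtain ⟨-, s1, k, t, s2, s3, s4⟩ := (hd γ).2.1
    by_contra hn
    obtain ⟨j, hj, fr⟩ : ∃ j < k, ∃ᶠ n in atTop, t n j ∈ ((d γ).1 n).1 ∧ t n j ∈ π '' D := by
      by_contra hc
      push Not at hc
      refine hn (((eventually_all_finite (finite_Iio k)).2 hc).mono fun n hn b b1 b2 b3 => ?_).frequently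
      obtain ⟨j, hj, rfl⟩ := s2 n b b1 b2
      exact hn j hj b1 b3
    have lim : Tendsto (fun n => e (t n j)) atTop (𝓝 (e (γ, j + 1))) := by
      refine tendsto_subtype_rng.2 (tendsto_pi_nhds.2 fun q => tendsto_const_nhds.congr' ?_)
      have : ∀ᶠ n in atTop, q ∈ X d (t n j) ↔ q ∈ X d (γ, j + 1) := by
        by_cases hq : q.1 < γ
        · exact (s4 j hj q hq).mono fun n hn => hn.trans (x_lt (p := (γ, j + 1)) hq).symm
        · refine Eventually.of_forall fun n => ?_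
          have h1 := (s3 n j hj).trans_le (not_lt.1 hq)
          rw [x_ge h1.le, x_ge (p := (γ, j + 1)) (not_lt.1 hq)]
          refine ⟨fun h => Or.inl (h.resolve_right fun u => h1.ne' (congrArg Prod.fst u)),
            fun h => Or.inl (h.elim id fun u => ?_)⟩
          rw [u]; exact j.succ_ne_zero
      exact this.mono fun n hn => by simp only [e0, hφ, hn]
    have mem : ∀ n, t n j ∈ π '' D → e (t n j) ∈ D := by
      rintro n ⟨p, hp, u⟩
      rwa [← u, he]
    have hp := d1.closure_subset (mem_closure_of_frequently_of_tendsto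
      (fr.mono fun n hn => mem n hn.2) lim)
    obtain ⟨V, v1, v2⟩ := isOpen_inter_eq_singleton_of_mem_discrete ⟨d2⟩ hp
    obtain ⟨n, ⟨n1, p, p1, p2⟩, n2, n3⟩ := (fr.and_eventually ((lim.eventually
      (v1.mem_nhds (v2.ge rfl).1)).and (s1 (π (e (γ, j + 1)))))).exists
    rw [← p2, he] at n2
    rw [← show p = _ from v2.le ⟨n2, p1⟩, p2] at n3
    exact n3 n1
  obtain ⟨p, hp, u⟩ := mem_iUnion₂.1 (d3.ge (mem_univ (e (δ, 0))))
  rw [mem_ofPred_eq, me, x_lt (p := (δ, 0)) ((hβ _ (Or.inl ⟨_, ⟨p, hp, rfl⟩, rfl⟩)).trans k1)] at u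
  exact k4 _ u (k3.ge ⟨p, hp, rfl⟩)

end Pool.Agent.Results.MP_f00d09_gt.DiamondCex
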